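import Mathlib

/-!
Project HD (MP_65ee2d_an): Hausdorff dimensions realised by compact families of compact sets.
-/

namespace Pool.Agent.R244.HD

open MeasureTheory Set Metric Topology
open scoped ENNReal NNReal

universe u

/-- Hausdorff content of dimension `s`. -/
noncomputable def cont {X : Type u} [MetricSpace X] (s : ℝ) (A : Set X) : ℝ≥0∞ :=
  ⨅ (E : ℕ → Set X) (_ : A ⊆ ⋃ n, E n), ∑' n, (ediam (E n)) ^ s

/-- Frostman condition with constant `C` and exponent `s`. -/
def Fros {X : Type u} [MetricSpace X] [MeasurableSpace X] (C : ℝ≥0) (s : ℝ)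
    (μ : Measure X) : Prop :=
  ∀ E : Set X, μ E ≤ (C : ℝ≥0∞) * (ediam E) ^ s

/-- Potential of exponent `t`. -/
noncomputable def pot {X : Type u} [MetricSpace X] [MeasurableSpace X] (t : ℝ)
    (μ : Measure X) (x : X) : ℝ≥0∞ :=
  ∫⁻ y, (edist x y) ^ (-t) ∂μ

/-- Mutual energy of exponent `t`. -/
noncomputable def en {X : Type u} [MetricSpace X] [MeasurableSpace X] (t : ℝ)
    (μ ν : Measure X) : ℝ≥0∞ :=
  ∫⁻ x, pot t ν x ∂μ

/-- Prefix of length `k` of an infinite sequence. -/
def pre (β : ℕ → ℕ) (k : ℕ) : List ℕ := (List.range k).map β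

/-- Scale index of a prefix. -/
def scl (σ : List ℕ) : ℕ := σ.sum + σ.length

/-- The tail set at a prefix `σ`. -/
def tailSet {X : Type u} (x₀ : X) (D : List ℕ → Set X) (σ : List ℕ) : Set X :=
  {x₀} ∪ ⋃ j : ℕ, D (σ ++ List.replicate (j + 1) 0)

/-- The compact set attached to an infinite sequence. -/
def bigSet {X : Type u} (x₀ : X) (D : List ℕ → Set X) (F : List ℕ → ℕ → Set X)
    (β : ℕ → ℕ) : Set X :=
  {x₀} ∪ ⋃ k : ℕ, (D (pre β k) ∪ F (pre β k) (β k))

end Pool.Agent.R244.HD
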