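import Pool.Agent.R244.HD.Stm

set_option autoImplicit false

namespace Pool.Agent.R244.HD

open MeasureTheory Set Metric Topology
open scoped ENNReal NNReal Classical

universe u

namespace DIMCAux

theorem pre_length (β : ℕ → ℕ) (k : ℕ) : (pre β k).length = k := by
  simp [pre]

theorem pre_eq (β β' : ℕ → ℕ) (k : ℕ) (h : pre β' k = pre β k) : ∀ i < k, β' i = β i := by
  intro i hi
  unfold pre at h
  rw [List.map_inj_left] at h
  exact h i (List.mem_range.2 hi)

theorem exists_cyl {u : Set (ℕ → ℕ)} (hu : IsOpen u) {β : ℕ → ℕ} (hβ : β ∈ u) :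
    ∃ k, ∀ β' : ℕ → ℕ, pre β' k = pre β k → β' ∈ u := by
  obtain ⟨s, ⟨x, k, rfl⟩, h1, h2⟩ :=
    (PiNat.isTopologicalBasis_cylinders (fun _ => ℕ)).exists_subset_of_mem_open hβ hu
  refine ⟨k, fun β' h => h2 ?_⟩
  rw [PiNat.mem_cylinder_iff] at h1 ⊢
  intro i hi
  rw [pre_eq β β' k h i hi]
  exact h1 i hi

end DIMCAux

open DIMCAux

theorem t_DIMC : S_DIMC.{u} := by
  intro X _ _ x₀ D F φ hφ hF hD β
  have h1 : dimH (bigSet x₀ D F β) = ⨆ k : ℕ, dimH (D (pre β k)) := by
    rw [bigSet, dimH_union, dimH_singleton, dimH_iUnion]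
    simp only [dimH_union, (hF _ _).dimH_zero, zero_max, max_zero]
  rw [h1]
  refine le_antisymm (iSup_le fun k => ?_) (le_of_forall_lt fun c hc => ?_)
  · rw [hD]
    exact iInf₂_le β (by rw [pre_length])
  · obtain ⟨c', hc1, hc2⟩ := exists_between hc
    obtain ⟨k, hk⟩ := exists_cyl (isOpen_lt continuous_const hφ) (show β ∈ {x | c' < φ x} from hc2)
    refine lt_of_lt_of_le hc1 (le_trans ?_ (le_iSup _ k))
    rw [hD]
    refine le_iInf₂ fun β' h => ?_
    rw [pre_length] at h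
    exact (hk β' h).le

end Pool.Agent.R244.HD
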