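import Pool.Agent.R244.HD.Stm

namespace Pool.Agent.R244.HD

open MeasureTheory Set Metric Topology Filter
open scoped ENNReal NNReal Classical

universe u

theorem t_SEL : S_SEL.{u} := by
  intro X _ _ _ _ μ Good hμ hgood r ε hr hε
  set G : Set X := {y | ∀ r : ℝ, 0 < r → ∃ ρ : ℝ, 0 < ρ ∧ ρ < r ∧ Good y ρ} with hG
  have hGc : μ Gᶜ = 0 := hgood
  have hex : ∀ y : X, ∃ ρ : ℝ, y ∈ G → 0 < ρ ∧ ρ < r ∧ Good y ρ := by
    intro y
    by_cases hy : y ∈ G
    · obtain ⟨ρ, h⟩ := hy r hr
      exact ⟨ρ, fun _ => h⟩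
    · exact ⟨0, fun h => absurd h hy⟩
  choose ρ hρ using hex
  obtain ⟨t, htG, htc, hcov⟩ := TopologicalSpace.countable_cover_nhdsWithin (s := G)
    (f := fun y => ball y (ρ y))
    (fun y hy => mem_nhdsWithin_of_mem_nhds (ball_mem_nhds y (hρ y hy).1))
  rcases t.eq_empty_or_nonempty with h0 | hne
  · refine ⟨∅, by simp, ?_⟩
    have hGe : G = ∅ := by
      rw [h0] at hcov
      simpa using hcov
    rw [hGe] at hGc
    have : μ (⋃ b ∈ (∅ : Finset (X × ℝ)), closedBall b.1 b.2)ᶜ = 0 := by
      simpa using hGc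
    rw [this]
    exact bot_le
  · obtain ⟨e, he⟩ := htc.exists_eq_range hne
    have hei : ∀ i, e i ∈ G := fun i => htG (he ▸ mem_range_self i)
    let C : ℕ → Set X := fun N => (⋃ i ∈ Finset.range N, ball (e i) (ρ (e i)))ᶜ
    have hanti : Antitone C := by
      intro M N hMN
      apply compl_subset_compl.2
      intro x hx
      simp only [mem_iUnion, Finset.mem_range, exists_prop] at hx ⊢
      obtain ⟨i, hi, hx⟩ := hx
      exact ⟨i, lt_of_lt_of_le hi hMN, hx⟩
    have hmeas : ∀ N, MeasurableSet (C N) := fun N =>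
      (isOpen_biUnion fun i _ => isOpen_ball).measurableSet.compl
    have hlim : Tendsto (fun N => μ (C N)) atTop (𝓝 (μ (⋂ N, C N))) :=
      tendsto_measure_iInter_atTop (fun N => (hmeas N).nullMeasurableSet) hanti
        ⟨0, measure_ne_top _ _⟩
    have hzero : μ (⋂ N, C N) = 0 := by
      refine measure_mono_null ?_ hGc
      intro x hx hxG
      have h1 := hcov hxG
      simp only [mem_iUnion, exists_prop] at h1
      obtain ⟨y, hy, hxy⟩ := h1
      rw [he] at hy
      obtain ⟨i, rfl⟩ := hy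
      have h2 := mem_iInter.1 hx (i + 1)
      apply h2
      simp only [mem_iUnion, Finset.mem_range, exists_prop]
      exact ⟨i, Nat.lt_succ_self i, hxy⟩
    rw [hzero] at hlim
    obtain ⟨N, hN⟩ := ((tendsto_order.1 hlim).2 ε hε).exists
    refine ⟨(Finset.range N).image (fun i => (e i, ρ (e i))), ?_, ?_⟩
    · intro b hb
      obtain ⟨i, _, rfl⟩ := Finset.mem_image.1 hb
      exact hρ (e i) (hei i)
    · refine le_trans (measure_mono ?_) hN.le
      apply compl_subset_compl.2
      intro x hx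
      simp only [mem_iUnion, exists_prop] at hx ⊢
      obtain ⟨i, hi, hx⟩ := hx
      exact ⟨(e i, ρ (e i)), Finset.mem_image_of_mem (fun i => (e i, ρ (e i))) hi,
        ball_subset_closedBall hx⟩

end Pool.Agent.R244.HD
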