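import Pool.Agent.R244.HD.Defs

namespace Pool.Agent.R244.HD

open MeasureTheory Set Metric Topology
open scoped ENNReal NNReal Classical

universe u

/-- Discrete Frostman lemma at scale `r`. -/
def S_FRD : Prop := ∀ s : ℝ, 0 < s → ∃ c : ℝ≥0, 0 < c ∧
  ∀ (X : Type u) [MetricSpace X] [CompactSpace X] (K : Set X), IsCompact K →
    ∀ r : ℝ≥0, 0 < r → ∃ Y : Finset X, (Y : Set X) ⊆ K ∧
      (c : ℝ≥0∞) * cont s K ≤ (r : ℝ≥0∞) ^ s * (Y.card : ℝ≥0∞) ∧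
      ∀ E : Set X, (r : ℝ≥0∞) ^ s * ((Y.filter (fun y => y ∈ E)).card : ℝ≥0∞) ≤
        (4 * max (ediam E) r) ^ s

/-- Frostman lemma in compact metric spaces. -/
def S_FR : Prop := ∀ s : ℝ, 0 < s → ∃ c : ℝ≥0, 0 < c ∧
  ∀ (X : Type u) [MetricSpace X] [CompactSpace X] [MeasurableSpace X] [BorelSpace X]
    (K : Set X), IsCompact K → ∃ μ : Measure X, IsFiniteMeasure μ ∧ μ Kᶜ = 0 ∧ Fros 1 s μ ∧
      (c : ℝ≥0∞) * cont s K ≤ μ univ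

/-- Density lemma. -/
def S_KL : Prop := ∀ (s T : ℝ), 0 < s → s < T →
  ∀ (X : Type u) [MetricSpace X] [CompactSpace X] [MeasurableSpace X] [BorelSpace X]
    (K : Set X) (μ : Measure X) (C : ℝ≥0), IsCompact K → IsFiniteMeasure μ → μ Kᶜ = 0 →
    Fros C s μ → ∀ᵐ y ∂μ, ∀ r : ℝ, 0 < r → ∃ ρ : ℝ, 0 < ρ ∧ ρ < r ∧
      (ENNReal.ofReal ρ) ^ T ≤ cont s (K ∩ closedBall y ρ)

/-- Potentials of Frostman measures. -/
def S_POT1 : Prop := ∀ (s t : ℝ), 0 < t → t < s → ∃ C₁ : ℝ≥0,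
  ∀ (X : Type u) [MetricSpace X] [CompactSpace X] [MeasurableSpace X] [BorelSpace X]
    (μ : Measure X), IsFiniteMeasure μ → Fros 1 s μ →
    ∀ x : X, pot t μ x ≤ (C₁ : ℝ≥0∞) * (μ univ) ^ (1 - t / s)

/-- Selection of finitely many good balls. -/
def S_SEL : Prop := ∀ (X : Type u) [MetricSpace X] [CompactSpace X] [MeasurableSpace X]
  [BorelSpace X] (μ : Measure X) (Good : X → ℝ → Prop), IsFiniteMeasure μ →
  (∀ᵐ y ∂μ, ∀ r : ℝ, 0 < r → ∃ ρ : ℝ, 0 < ρ ∧ ρ < r ∧ Good y ρ) →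
  ∀ (r : ℝ) (ε : ℝ≥0∞), 0 < r → 0 < ε → ∃ B : Finset (X × ℝ),
    (∀ b ∈ B, 0 < b.2 ∧ b.2 < r ∧ Good b.1 b.2) ∧
    μ (⋃ b ∈ B, closedBall b.1 b.2)ᶜ ≤ ε

/-- Vertex lemma for multi-affine functions. -/
def S_VERT : Prop := ∀ (n : ℕ) (a : Fin n → Fin n → ℝ) (b p : Fin n → ℝ),
  (∀ i, 0 ≤ p i ∧ p i ≤ 1) → ∃ ξ : Fin n → ℝ, (∀ i, ξ i = 0 ∨ ξ i = 1) ∧
    (∑ i, b i * p i) + (∑ i, ∑ j, if i = j then 0 else a i j * p i * p j) ≤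
      (∑ i, b i * ξ i) + (∑ i, ∑ j, if i = j then 0 else a i j * ξ i * ξ j)

/-- Potentials after relocation of the mass. -/
def S_RELOC : Prop := ∀ (s t T : ℝ), 0 < t → t < s → s < T → T * t < s ^ 2 →
  ∀ (C D : ℝ≥0) (θ η : ℝ), 0 < θ → 0 < η → ∃ r₀ : ℝ, 0 < r₀ ∧
  ∀ (X : Type u) [MetricSpace X] [CompactSpace X] [MeasurableSpace X] [BorelSpace X]
    (μ : Measure X) (n : ℕ) (y : Fin n → X) (ρ : Fin n → ℝ) (A : Fin n → Set X)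
    (ν : Fin n → Measure X), IsFiniteMeasure μ → Fros C s μ →
    (∀ i, 0 < ρ i ∧ ρ i < r₀) → (∀ i, MeasurableSet (A i)) →
    (∀ i j, i ≠ j → Disjoint (A i) (A j)) → (∀ i, A i ⊆ closedBall (y i) (ρ i)) →
    (∀ i, IsProbabilityMeasure (ν i)) → (∀ i, ν i (closedBall (y i) (ρ i))ᶜ = 0) →
    (∀ i x, pot t (ν i) x ≤ (D : ℝ≥0∞) * (ENNReal.ofReal (ρ i)) ^ (-(T * t / s))) →
    ∀ x : X, ∑ i, μ (A i) * pot t (ν i) x ≤
      ENNReal.ofReal (1 + θ) * pot t μ x + ENNReal.ofReal η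

/-- The family of small pieces with all estimates. -/
def S_FAMI : Prop := ∀ (t s T' : ℝ), 0 < t → t < s → s < T' →
  ∀ (X : Type u) [MetricSpace X] [CompactSpace X] [MeasurableSpace X] [BorelSpace X]
    (K : Set X) (μ : Measure X) (C : ℝ≥0), IsCompact K → IsFiniteMeasure μ → μ Kᶜ = 0 →
    Fros C s μ → en t μ μ ≠ ⊤ → ∀ δ : ℝ, 0 < δ →
    ∃ (n : ℕ) (U : Fin n → Set X) (ν : Fin n → Measure X) (m p : Fin n → ℝ) (c : Fin n → ℝ≥0),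
      (∀ i, IsCompact (U i) ∧ U i ⊆ K ∧ ediam (U i) ≤ ENNReal.ofReal δ) ∧
      (∀ i, IsProbabilityMeasure (ν i) ∧ ν i (U i)ᶜ = 0 ∧ Fros (c i) s (ν i)) ∧
      (∀ i j, en t (ν i) (ν j) ≠ ⊤) ∧
      (∀ i, 0 ≤ m i ∧ 0 ≤ p i ∧ p i ≤ 1 ∧ (p i = 0 → m i = 0)) ∧
      (μ univ).toReal - δ ≤ ∑ i, m i ∧
      (∑ i, ∑ j, m i * m j * (en t (ν i) (ν j)).toReal ≤ (en t μ μ).toReal + δ) ∧
      (∑ i, m i * (m i / p i) * (en t (ν i) (ν i)).toReal ≤ δ) ∧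
      (∑ i, p i * (ediam (U i)).toReal ^ T' ≤ δ)

/-- One step of the construction. -/
def S_STEP : Prop := ∀ (t s T' : ℝ), 0 < t → t < s → s < T' →
  ∀ (X : Type u) [MetricSpace X] [CompactSpace X] [MeasurableSpace X] [BorelSpace X]
    (K : Set X) (μ : Measure X) (C : ℝ≥0) (α ε : ℝ), (∀ x y : X, dist x y ≤ 1) →
    IsCompact K → IsFiniteMeasure μ → μ Kᶜ = 0 → Fros C s μ → en t μ μ ≠ ⊤ →
    0 < α → 0 < ε → α * (en t μ μ).toReal ≤ (μ univ).toReal →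
    ∃ (K' : Set X) (μ' : Measure X) (C' : ℝ≥0), K' ⊆ K ∧ IsCompact K' ∧ IsFiniteMeasure μ' ∧
      μ' K'ᶜ = 0 ∧ Fros C' s μ' ∧ en t μ' μ' ≠ ⊤ ∧
      (μ univ).toReal + α * (en t μ' μ').toReal ≤
        (μ' univ).toReal + α * (en t μ μ).toReal + ε ∧
      ∃ (n : ℕ) (U : Fin n → Set X), K' ⊆ (⋃ i, U i) ∧
        (∀ i, ediam (U i) ≤ ENNReal.ofReal ε) ∧ ∑ i, (ediam (U i)) ^ T' ≤ ENNReal.ofReal ε

/-- Energy and content. -/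
def S_EC : Prop := ∀ (t : ℝ), 0 < t →
  ∀ (X : Type u) [MetricSpace X] [CompactSpace X] [MeasurableSpace X] [BorelSpace X]
    (K : Set X) (μ : Measure X), IsFiniteMeasure μ → μ Kᶜ = 0 → en t μ μ ≠ ⊤ →
    (μ univ) ^ 2 ≤ 4 * en t μ μ * cont t K

/-- Content along decreasing compact sets. -/
def S_NEST : Prop := ∀ (t : ℝ), 0 < t →
  ∀ (X : Type u) [MetricSpace X] [CompactSpace X] (K : ℕ → Set X) (c : ℝ≥0∞),
    (∀ n, IsCompact (K n)) → (∀ n, K (n + 1) ⊆ K n) → (∀ n, c ≤ cont t (K n)) →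
    c ≤ cont t (⋂ n, K n)

/-- Content and Hausdorff dimension. -/
def S_CH : Prop := ∀ (X : Type u) [MetricSpace X] [CompactSpace X] [MeasurableSpace X]
  [BorelSpace X] (t : ℝ), 0 < t → ∀ A : Set X,
  (cont t A ≠ 0 → ENNReal.ofReal t ≤ dimH A) ∧ (ENNReal.ofReal t < dimH A → cont t A ≠ 0) ∧
  ((∀ ε : ℝ, 0 < ε → ∃ (n : ℕ) (U : Fin n → Set X), A ⊆ (⋃ i, U i) ∧
    (∀ i, ediam (U i) ≤ ENNReal.ofReal ε) ∧ ∑ i, (ediam (U i)) ^ t ≤ ENNReal.ofReal ε) →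
    dimH A ≤ ENNReal.ofReal t)

/-- Compact subsets of intermediate dimension. -/
def S_INT : Prop := ∀ (t T : ℝ), 0 < t → t < T →
  ∀ (X : Type u) [MetricSpace X] [CompactSpace X], (∀ x y : X, dist x y ≤ 1) →
    ENNReal.ofReal t < dimH (univ : Set X) →
    ∃ K : Set X, IsCompact K ∧ ENNReal.ofReal t ≤ dimH K ∧ dimH K ≤ ENNReal.ofReal T

/-- A point of full local dimension. -/
def S_LOC : Prop := ∀ (X : Type u) [MetricSpace X] [CompactSpace X] [Nonempty X],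
  ∃ x₀ : X, ∀ r : ℝ, 0 < r → dimH (closedBall x₀ r) = dimH (univ : Set X)

/-- Compact sets of every dimension near one point. -/
def S_DIM : Prop := ∀ (X : Type u) [MetricSpace X] [CompactSpace X] [Nonempty X],
  ∃ x₀ : X, ∀ t : ℝ≥0∞, t ≤ dimH (univ : Set X) → ∀ r : ℝ, 0 < r →
    ∃ D : Set X, IsCompact D ∧ x₀ ∈ D ∧ D ⊆ closedBall x₀ r ∧ dimH D = t

/-- Compactness of the family. -/
def S_COMP : Prop := ∀ (X : Type u) [MetricSpace X] [CompactSpace X] (x₀ : X)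
  (D : List ℕ → Set X) (F : List ℕ → ℕ → Set X),
  (∀ σ, IsCompact (D σ) ∧ x₀ ∈ D σ ∧ D σ ⊆ closedBall x₀ ((1 / 2 : ℝ) ^ scl σ)) →
  (∀ σ m, (F σ m).Finite ∧ F σ m ⊆ tailSet x₀ D σ) → (∀ σ, F σ 0 = ∅) →
  (∀ σ m, 1 ≤ m → ∀ x ∈ tailSet x₀ D σ, ∃ y ∈ F σ m, dist x y ≤ (1 / 2 : ℝ) ^ m) →
  ∃ C : (ℕ → ℕ) → TopologicalSpace.NonemptyCompacts X,
    (∀ β, (C β : Set X) = bigSet x₀ D F β) ∧ IsCompact (range C)

/-- Finite nets of the tails. -/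
def S_NETF : Prop := ∀ (X : Type u) [MetricSpace X] [CompactSpace X] (x₀ : X)
  (D : List ℕ → Set X), ∃ F : List ℕ → ℕ → Set X,
  (∀ σ m, (F σ m).Finite ∧ F σ m ⊆ tailSet x₀ D σ) ∧ (∀ σ, F σ 0 = ∅) ∧
  (∀ σ m, 1 ≤ m → ∀ x ∈ tailSet x₀ D σ, ∃ y ∈ F σ m, dist x y ≤ (1 / 2 : ℝ) ^ m)

/-- Dimension of the sets of the family. -/
def S_DIMC : Prop := ∀ (X : Type u) [MetricSpace X] [CompactSpace X] (x₀ : X)
  (D : List ℕ → Set X) (F : List ℕ → ℕ → Set X) (φ : (ℕ → ℕ) → ℝ≥0∞), Continuous φ →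
  (∀ σ m, (F σ m).Finite) →
  (∀ σ, dimH (D σ) = ⨅ (β : ℕ → ℕ) (_ : pre β σ.length = σ), φ β) →
  ∀ β, dimH (bigSet x₀ D F β) = φ β

/-- The main theorem (Q1 of MP_65ee2d_an). -/
def S_MAIN : Prop := ∀ (X : Type u) [MetricSpace X] [CompactSpace X] [Nonempty X]
  (A : Set ℝ≥0∞), AnalyticSet A → A ⊆ Iic (dimH (univ : Set X)) →
  ∃ 𝒞 : Set (TopologicalSpace.NonemptyCompacts X), IsCompact 𝒞 ∧
    (fun C : TopologicalSpace.NonemptyCompacts X => dimH (C : Set X)) '' 𝒞 = A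

end Pool.Agent.R244.HD
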